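import Mathlib

set_option autoImplicit false

/-!
# A non-extremal `(16 × 25, 100)`-triple array (MP_a8dd7a_co)
-/

namespace Pool.Agent.Results.MP_a8dd7a_co.Array16x25

open Function Finset

/-- the set of the symbols in row `i` -/
def rowSet {r c v : ℕ} (T : Fin r → Fin c → Fin v) (i : Fin r) : Finset (Fin v) :=
  univ.image (fun j => T i j)

/-- the set of the symbols in column `j` -/
def colSet {r c v : ℕ} (T : Fin r → Fin c → Fin v) (j : Fin c) : Finset (Fin v) :=
  univ.image (fun i => T i j)

/-- `T` is an `(r × c, v)`-triple array: no symbol occurs twice in a row or in a column, all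
symbols occur the same number of times, and the numbers of common symbols of two distinct rows, of
two distinct columns, and of a row and a column are constant. -/
def IsTripleArray (r c v : ℕ) (T : Fin r → Fin c → Fin v) : Prop :=
  (∀ i, Injective (fun j => T i j)) ∧ (∀ j, Injective (fun i => T i j)) ∧
  (∃ k : ℕ, ∀ s : Fin v, (univ.filter fun p : Fin r × Fin c => T p.1 p.2 = s).card = k) ∧
  (∃ lrr : ℕ, ∀ i i', i ≠ i' → (rowSet T i ∩ rowSet T i').card = lrr) ∧
  (∃ lcc : ℕ, ∀ j j', j ≠ j' → (colSet T j ∩ colSet T j').card = lcc) ∧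
  (∃ lrc : ℕ, ∀ i j, (rowSet T i ∩ colSet T j).card = lrc)

/-- the entries of the array, eight bits each -/
def table : ℕ := 0x2c2b2a292827262524232221201f1e1d1c1b1a1931302f2e2d4b532f453a3e33624c286326374a5b43595c1f351d473c52553142374d505f4e2a403539475d60235e213245563e54571a49394f522e442c3d32614b5a62253b493442585b1e591c4640515430413b4c34634d293f2738465c5f555d203644483d53561943384e512d4f2b3c3660485e61243a223341575a50581b4a3f0d1b615817305d541309594b0a002c600615235002111f4c5c160c1a6057082f5c53122b584f0e04545f0514275b01101e4b56150b195f11072e5b52032a574e0d26536309184f5a000f226355140a1d5110062d5a0c0229564d1725526208214e5e04131c6259180e5e500f05314c0b012855071624516112204d5d03184934162e13444811290e3f430c24093a3e071f043539021a2d174833152812434710230d3e420b1e08393d06190334380114311647320f2c1142460a270c3d41052207383c001d02333736183015464a132b1041450e260b3c40092106373b041c01324a35172f144549122a0f40440d250a3b3f082005363a031b00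

/-- the array -/
def T (i : Fin 16) (j : Fin 25) : Fin 100 :=
  Fin.ofNat 100 (Nat.land (Nat.shiftRight table (8 * (25 * i.val + j.val))) 255)

set_option maxRecDepth 1000000 in
theorem rows_ok : ∀ i i' : Fin 16, i ≠ i' → (rowSet T i ∩ rowSet T i').card = 5 := by
  decide +kernel

set_option maxRecDepth 1000000 in
theorem cols_ok : ∀ j j' : Fin 25, j ≠ j' → (colSet T j ∩ colSet T j').card = 2 := by
  decide +kernel

set_option maxRecDepth 1000000 in
theorem rc_ok : ∀ (i : Fin 16) (j : Fin 25), (rowSet T i ∩ colSet T j).card = 4 := by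
  decide +kernel

set_option maxRecDepth 1000000 in
theorem count_ok : ∀ s : Fin 100,
    (univ.filter fun p : Fin 16 × Fin 25 => T p.1 p.2 = s).card = 4 := by
  decide +kernel

set_option maxRecDepth 1000000 in
theorem row_inj : ∀ (i : Fin 16) (j j' : Fin 25), T i j = T i j' → j = j' := by
  decide +kernel

set_option maxRecDepth 1000000 in
theorem col_inj : ∀ (j : Fin 25) (i i' : Fin 16), T i j = T i' j → i = i' := by
  decide +kernel

/-- There is a triple array for at least one of the nine parameter sets: a
`(16 × 25, 100)`-triple array exists. -/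
theorem result :
    (∃ T : Fin 16 → Fin 25 → Fin 100, IsTripleArray 16 25 100 T) ∧
    ∃ p ∈ ({(16, 21, 56), (16, 25, 100), (16, 81, 216), (16, 145, 232), (21, 16, 56),
      (21, 36, 126), (25, 16, 100), (36, 21, 126), (81, 16, 216)} : Set (ℕ × ℕ × ℕ)),
      ∃ T : Fin p.1 → Fin p.2.1 → Fin p.2.2, IsTripleArray p.1 p.2.1 p.2.2 T := by
  have h : IsTripleArray 16 25 100 T :=
    ⟨fun i j j' e => row_inj i j j' e, fun j i i' e => col_inj j i i' e, ⟨4, count_ok⟩,
      ⟨5, rows_ok⟩, ⟨2, cols_ok⟩, ⟨4, rc_ok⟩⟩
  exact ⟨⟨T, h⟩, (16, 25, 100), by simp, T, h⟩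

end Pool.Agent.Results.MP_a8dd7a_co.Array16x25
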